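import Mathlib

/-!
# MP_41152b_al: definitions

Lie superalgebras over `ℂ`, classical Lie superalgebras, relative cochains with the Koszul-sign
differential, relative cohomology, the filtration by even arguments and collapse at `E_2`.
-/

set_option autoImplicit false

namespace Pool.Agent.R865.SC
open Finset

/-- The sign `(-1)^k`. -/
noncomputable def sgn (k : ℕ) : ℂ := (-1) ^ k

section
variable {V : Type} [AddCommGroup V] [Module ℂ V]

/-- `T` is `ℂ`-linear. -/
def IsLin {W : Type} [AddCommGroup W] [Module ℂ W] (T : V → W) : Prop :=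
  ∀ (c : ℂ) (x y : V), T (c • x + y) = c • T x + T y

/-- The maps `proj 0`, `proj 1` are the two projections of a `ℤ/2`-grading `V = V_0 ⊕ V_1`. -/
def IsGrading (proj : Fin 2 → V → V) : Prop :=
  (∀ i, IsLin (proj i)) ∧ (∀ v, proj 0 v + proj 1 v = v) ∧ (∀ i v, proj i (proj i v) = proj i v) ∧
    ∀ i j, i ≠ j → ∀ v, proj i (proj j v) = 0

/-- The bracket is bilinear and even: `[V_i, V_j] ⊆ V_{i+j}`. -/
def IsEvenBilinear (proj : Fin 2 → V → V) (bracket : V → V → V) : Prop :=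
  (∀ x, IsLin (bracket x)) ∧ (∀ y, IsLin (fun x => bracket x y)) ∧
    ∀ (i j : Fin 2) (x y : V), proj i x = x → proj j y = y →
      proj (i + j) (bracket x y) = bracket x y

/-- Super-antisymmetry: `[x, y] = -(-1)^(|x||y|) [y, x]`. -/
def IsSuperSkew (proj : Fin 2 → V → V) (bracket : V → V → V) : Prop :=
  ∀ (i j : Fin 2) (x y : V), proj i x = x → proj j y = y →
    bracket x y = -(sgn ((i : ℕ) * (j : ℕ)) • bracket y x)

/-- The super Jacobi identity: `[x, [y, z]] = [[x, y], z] + (-1)^(|x||y|) [y, [x, z]]`. -/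
def IsSuperJacobi (proj : Fin 2 → V → V) (bracket : V → V → V) : Prop :=
  ∀ (i j k : Fin 2) (x y z : V), proj i x = x → proj j y = y → proj k z = z →
    bracket x (bracket y z) =
      bracket (bracket x y) z + sgn ((i : ℕ) * (j : ℕ)) • bracket y (bracket x z)

end

/-- A Lie superalgebra structure over `ℂ` on the vector space `V`.  The `ℤ/2`-grading is given by
its two projections `proj 0` (onto the even part) and `proj 1` (onto the odd part). -/
structure LieSuperalgebra (V : Type) [AddCommGroup V] [Module ℂ V] where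
  proj : Fin 2 → V → V
  bracket : V → V → V
  grading : IsGrading proj
  bilinear : IsEvenBilinear proj bracket
  skew : IsSuperSkew proj bracket
  jacobi : IsSuperJacobi proj bracket

variable {V : Type} [AddCommGroup V] [Module ℂ V]

theorem part_aux (L : LieSuperalgebra V) (i : Fin 2) :
    L.proj i 0 = 0 := by
  have h := L.grading.1 i 0 0 0
  have h1 := L.grading.1 i 1 0 0
  simp only [one_smul, add_zero] at h1
  have : L.proj i 0 + L.proj i 0 = L.proj i 0 := h1.symm
  simpa using this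

theorem part_add (L : LieSuperalgebra V) (i : Fin 2) {x y : V} (hx : L.proj i x = x)
    (hy : L.proj i y = y) : L.proj i (x + y) = x + y := by
  have h := L.grading.1 i 1 x y
  simpa [hx, hy] using h

theorem part_smul (L : LieSuperalgebra V) (i : Fin 2) (c : ℂ) {x : V} (hx : L.proj i x = x) :
    L.proj i (c • x) = c • x := by
  have h := L.grading.1 i c x 0
  simpa [hx, part_aux] using h

/-- The homogeneous part `L_i` of parity `i` of a Lie superalgebra. -/
def LieSuperalgebra.part (L : LieSuperalgebra V) (i : Fin 2) : Submodule ℂ V where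
  carrier := {v | L.proj i v = v}
  zero_mem' := part_aux L i
  add_mem' := fun hx hy => part_add L i hx hy
  smul_mem' := fun c _ hx => part_smul L i c hx

/-! ### Algebraic groups and classical Lie superalgebras -/

/-- `n × n` matrices over `ℂ`. -/
abbrev Mat (n : ℕ) : Type := Matrix (Fin n) (Fin n) ℂ

/-- The matrix of an element of `GL_n(ℂ)`. -/
def mat {n : ℕ} (g : GL (Fin n) ℂ) : Mat n := g.val

/-- The entries of an invertible matrix. -/
def entries {n : ℕ} (g : GL (Fin n) ℂ) : Fin n × Fin n → ℂ := fun ij => mat g ij.1 ij.2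

/-- The entries of an invertible matrix and of its inverse. -/
def entries₂ {n : ℕ} (g : GL (Fin n) ℂ) : (Fin n × Fin n) ⊕ (Fin n × Fin n) → ℂ :=
  Sum.elim (entries g) (entries g⁻¹)

/-- `G` is a Zariski closed subgroup of `GL_n(ℂ)`, that is, a linear algebraic group. -/
def IsZariskiClosed {n : ℕ} (G : Subgroup (GL (Fin n) ℂ)) : Prop :=
  ∃ S : Set (MvPolynomial (Fin n × Fin n) ℂ), ∀ g : GL (Fin n) ℂ,
    g ∈ G ↔ ∀ P ∈ S, MvPolynomial.eval (entries g) P = 0

/-- Connectedness of a linear algebraic group: there is no proper Zariski closed subgroup of finite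
index. -/
def IsZariskiConnected {n : ℕ} (G : Subgroup (GL (Fin n) ℂ)) : Prop :=
  ∀ H : Subgroup (GL (Fin n) ℂ), H ≤ G → IsZariskiClosed H → H.relIndex G ≠ 0 → H = G

/-- Reductivity of a linear algebraic group: every closed connected normal unipotent subgroup is
trivial. -/
def IsReductive {n : ℕ} (G : Subgroup (GL (Fin n) ℂ)) : Prop :=
  ∀ U : Subgroup (GL (Fin n) ℂ), U ≤ G → IsZariskiClosed U → IsZariskiConnected U →
    (∀ g ∈ G, ∀ u ∈ U, g * u * g⁻¹ ∈ U) → (∀ u ∈ U, IsNilpotent (mat u - 1)) → U = ⊥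

/-- The Lie algebra of `G ≤ GL_n(ℂ)`: all matrices `X` with `exp (t X) ∈ G` for all `t ∈ ℂ`. -/
def LieOf {n : ℕ} (G : Subgroup (GL (Fin n) ℂ)) : Set (Mat n) :=
  {X | ∀ t : ℂ, ∃ g ∈ G, mat g = NormedSpace.exp (t • X)}

/-- The restriction of `φ` to the even part `L_0` is an isomorphism of Lie algebras from `L_0` onto
the Lie algebra of `G`. -/
def IsLieIso (L : LieSuperalgebra V) {n : ℕ} (G : Subgroup (GL (Fin n) ℂ)) (φ : V → Mat n) :
    Prop :=
  (∀ a ∈ L.part 0, ∀ b ∈ L.part 0, ∀ c : ℂ, φ (c • a + b) = c • φ a + φ b) ∧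
  Set.BijOn φ (L.part 0) (LieOf G) ∧
  ∀ a ∈ L.part 0, ∀ b ∈ L.part 0, φ (L.bracket a b) = φ a * φ b - φ b * φ a

/-- `ρ` is a linear representation of `G` on the odd part `L_1`. -/
def IsOddRepresentation (L : LieSuperalgebra V) {n : ℕ} (G : Subgroup (GL (Fin n) ℂ))
    (ρ : GL (Fin n) ℂ → V → V) : Prop :=
  (∀ v ∈ L.part 1, ρ 1 v = v) ∧
  (∀ g ∈ G, ∀ v ∈ L.part 1, ρ g v ∈ L.part 1) ∧
  (∀ g ∈ G, ∀ h ∈ G, ∀ v ∈ L.part 1, ρ (g * h) v = ρ g (ρ h v)) ∧
  (∀ g ∈ G, ∀ v ∈ L.part 1, ∀ w ∈ L.part 1, ∀ c : ℂ, ρ g (c • v + w) = c • ρ g v + ρ g w)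

/-- The representation `ρ` of `G` on `L_1` is rational: its matrix coefficients are polynomials in
the entries of `g` and of `g⁻¹`. -/
def IsRational (L : LieSuperalgebra V) {n : ℕ} (G : Subgroup (GL (Fin n) ℂ))
    (ρ : GL (Fin n) ℂ → V → V) : Prop :=
  ∀ v ∈ L.part 1, ∀ l : V →ₗ[ℂ] ℂ, ∃ P : MvPolynomial ((Fin n × Fin n) ⊕ (Fin n × Fin n)) ℂ,
    ∀ g ∈ G, l (ρ g v) = MvPolynomial.eval (entries₂ g) P

/-- The action `ρ` on `L_1` differentiates to the adjoint action of `L_0`: the derivative of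
`t ↦ ρ (exp (t φ(a))) v` at `t = 0` is `[a, v]`. -/
def DifferentiatesToAd (L : LieSuperalgebra V) {n : ℕ} (φ : V → Mat n)
    (ρ : GL (Fin n) ℂ → V → V) : Prop :=
  ∀ a ∈ L.part 0, ∀ v ∈ L.part 1, ∀ l : V →ₗ[ℂ] ℂ, ∀ γ : ℂ → GL (Fin n) ℂ,
    (∀ t : ℂ, mat (γ t) = NormedSpace.exp (t • φ a)) →
    HasDerivAt (fun t : ℂ => l (ρ (γ t) v)) (l (L.bracket a v)) 0

/-- `L` is a classical Lie superalgebra: it is finite dimensional, and there are a connected
reductive algebraic group `G`, an isomorphism `φ` of the even part `L_0` with the Lie algebra of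
`G`, and a rational representation `ρ` of `G` on the odd part `L_1` whose differential is the
adjoint action. -/
def IsClassical (L : LieSuperalgebra V) : Prop :=
  FiniteDimensional ℂ V ∧
  ∃ (n : ℕ) (G : Subgroup (GL (Fin n) ℂ)) (φ : V → Mat n) (ρ : GL (Fin n) ℂ → V → V),
    IsZariskiClosed G ∧ IsZariskiConnected G ∧ IsReductive G ∧ IsLieIso L G φ ∧
    IsOddRepresentation L G ρ ∧ IsRational L G ρ ∧ DifferentiatesToAd L φ ρ

/-- `a` is a subalgebra of the even part. -/
def IsEvenSubalgebra (L : LieSuperalgebra V) (a : Submodule ℂ V) : Prop :=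
  a ≤ L.part 0 ∧ ∀ x ∈ a, ∀ y ∈ a, L.bracket x y ∈ a

/-! ### Relative cochains and cohomology with trivial coefficients -/

/-- `f` is `ℂ`-multilinear. -/
def IsMultilinear {n : ℕ} (f : (Fin n → V) → ℂ) : Prop :=
  ∀ (v : Fin n → V) (i : Fin n), IsLin (fun x => f (Function.update v i x))

/-- `f` is super-alternating: interchanging two neighbouring homogeneous arguments `x, y` multiplies
the value by `-(-1)^(|x||y|)`. -/
def IsSuperAlternating (L : LieSuperalgebra V) {n : ℕ} (f : (Fin n → V) → ℂ) : Prop :=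
  ∀ (e : Fin n → Fin 2) (v : Fin n → V), (∀ k, v k ∈ L.part (e k)) →
    ∀ i j : Fin n, (j : ℕ) = i + 1 →
      f (fun k => v (Equiv.swap i j k)) = -(sgn ((e i : ℕ) * (e j : ℕ)) * f v)

/-- `f` is a function on `L/a`: for multilinear `f`, it vanishes when one argument lies in `a`. -/
def VanishesOn (a : Submodule ℂ V) {n : ℕ} (f : (Fin n → V) → ℂ) : Prop :=
  ∀ v : Fin n → V, ∀ i, v i ∈ a → f v = 0

/-- `f` is invariant under `a`: `∑_i f(v_1, …, [x, v_i], …, v_n) = 0` for `x ∈ a`. -/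
def IsInvariant (L : LieSuperalgebra V) (a : Submodule ℂ V) {n : ℕ} (f : (Fin n → V) → ℂ) :
    Prop :=
  ∀ x ∈ a, ∀ v : Fin n → V, ∑ i, f (Function.update v i (L.bracket x (v i))) = 0

/-- `f ∈ C^n(L, a; ℂ) = Hom_a(Λ_s^n(L/a), ℂ)`. -/
def IsCochain (L : LieSuperalgebra V) (a : Submodule ℂ V) {n : ℕ} (f : (Fin n → V) → ℂ) : Prop :=
  IsMultilinear f ∧ IsSuperAlternating L f ∧ VanishesOn a f ∧ IsInvariant L a f

theorem cochain_zero (L : LieSuperalgebra V) (a : Submodule ℂ V) (n : ℕ) :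
    IsCochain L a (0 : (Fin n → V) → ℂ) := by
  refine ⟨fun v i c x y => by simp, fun e v hv i j hij => by simp, fun v i hi => rfl,
      fun x hx v => by simp⟩

theorem cochain_add (L : LieSuperalgebra V) (a : Submodule ℂ V) {n : ℕ}
    {f g : (Fin n → V) → ℂ} (hf : IsCochain L a f) (hg : IsCochain L a g) :
    IsCochain L a (f + g) := by
  obtain ⟨f1, f2, f3, f4⟩ := hf
  obtain ⟨g1, g2, g3, g4⟩ := hg
  refine ⟨fun v i c x y => ?_, fun e v hv i j hij => ?_, fun v i hi => ?_, fun x hx v => ?_⟩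
  · have h1 := f1 v i c x y
    have h2 := g1 v i c x y
    simp only at h1 h2
    simp only [Pi.add_apply, h1, h2, smul_eq_mul]; ring
  · simp only [Pi.add_apply, f2 e v hv i j hij, g2 e v hv i j hij]; ring
  · simp only [Pi.add_apply, f3 v i hi, g3 v i hi, add_zero]
  · simp only [Pi.add_apply, Finset.sum_add_distrib, f4 x hx v, g4 x hx v, add_zero]

theorem cochain_smul (L : LieSuperalgebra V) (a : Submodule ℂ V) {n : ℕ} (r : ℂ)
    {f : (Fin n → V) → ℂ} (hf : IsCochain L a f) : IsCochain L a (r • f) := by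
  obtain ⟨f1, f2, f3, f4⟩ := hf
  refine ⟨fun v i c x y => ?_, fun e v hv i j hij => ?_, fun v i hi => ?_, fun x hx v => ?_⟩
  · have h1 := f1 v i c x y
    simp only at h1
    simp only [Pi.smul_apply, smul_eq_mul, h1]; ring
  · simp only [Pi.smul_apply, smul_eq_mul, f2 e v hv i j hij]; ring
  · simp only [Pi.smul_apply, smul_eq_mul, f3 v i hi, mul_zero]
  · simp only [Pi.smul_apply, smul_eq_mul, ← Finset.mul_sum, f4 x hx v, mul_zero]

/-- The relative cochains `C^n(L, a; ℂ) = Hom_a(Λ_s^n(L/a), ℂ)`. -/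
def Cochain (L : LieSuperalgebra V) (a : Submodule ℂ V) (n : ℕ) :
    Submodule ℂ ((Fin n → V) → ℂ) where
  carrier := {f | IsCochain L a f}
  zero_mem' := cochain_zero L a n
  add_mem' := fun hf hg => cochain_add L a hf hg
  smul_mem' := fun c _ hf => cochain_smul L a c hf

/-- The exponent
`σ_{ij} = i + j + |ω_i| (|ω_0| + ⋯ + |ω_{i-1}|) + |ω_j| (|ω_0| + ⋯ + |ω_{j-1}| + |ω_i|)`
of the Koszul sign, for arguments `ω_0, …, ω_{n-1}` of parities `e 0, …, e (n-1)`. -/
def koszul {n : ℕ} (e : Fin n → Fin 2) (i j : Fin n) : ℕ :=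
  (i : ℕ) + (j : ℕ) + (e i : ℕ) * (∑ k ∈ univ.filter (· < i), (e k : ℕ)) +
    (e j : ℕ) * ((∑ k ∈ univ.filter (· < j), (e k : ℕ)) + (e i : ℕ))

/-- The term `(-1)^σ_{ij} f([w_i, w_j], w_0, …, ŵ_i, …, ŵ_j, …, w_(m+1))` of the differential, for
homogeneous arguments `w_k` of parity `e k`, if `i < j`, and `0` otherwise.  Here `i` runs over
`Fin (m+1)`, `i.castSucc` is the index `i`, and `k ↦ j.succAbove (i.succAbove k)` lists the indices
different from `i` and `j`. -/
noncomputable def dTerm (L : LieSuperalgebra V) {m : ℕ} (f : (Fin (m + 1) → V) → ℂ)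
    (e : Fin (m + 2) → Fin 2) (w : Fin (m + 2) → V) (j : Fin (m + 2)) (i : Fin (m + 1)) : ℂ :=
  if i.castSucc < j then
    sgn (koszul e i.castSucc j) * f (Fin.cons (L.bracket (w i.castSucc) (w j))
      (fun k : Fin m => w (j.succAbove (i.succAbove k))))
  else 0

/-- The differential with trivial coefficients.  On homogeneous arguments `ω_0, …, ω_(m+1)` it is
`(d f)(ω_0, …, ω_(m+1)) = ∑_{i < j} (-1)^σ_{ij} f([ω_i, ω_j], ω_0, …, ω̂_i, …, ω̂_j, …, ω_(m+1))`,
and this is extended multilinearly by decomposing every argument into its even and odd parts (the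
sum over the parities `e`). -/
noncomputable def dFun (L : LieSuperalgebra V) {m : ℕ} (f : (Fin (m + 1) → V) → ℂ)
    (v : Fin (m + 2) → V) : ℂ :=
  ∑ e : Fin (m + 2) → Fin 2, ∑ j : Fin (m + 2), ∑ i : Fin (m + 1),
    dTerm L f e (fun k => L.proj (e k) (v k)) j i

theorem dFun_add (L : LieSuperalgebra V) {m : ℕ} (f g : (Fin (m + 1) → V) → ℂ) :
    dFun L (f + g) = dFun L f + dFun L g := by
  funext v
  simp only [dFun, dTerm, Pi.add_apply, ← Finset.sum_add_distrib]
  refine Finset.sum_congr rfl fun e _ => Finset.sum_congr rfl fun j _ =>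
    Finset.sum_congr rfl fun i _ => ?_
  split_ifs <;> ring

theorem dFun_smul (L : LieSuperalgebra V) {m : ℕ} (c : ℂ) (f : (Fin (m + 1) → V) → ℂ) :
    dFun L (c • f) = c • dFun L f := by
  funext v
  simp only [dFun, dTerm, Pi.smul_apply, smul_eq_mul, Finset.mul_sum]
  refine Finset.sum_congr rfl fun e _ => Finset.sum_congr rfl fun j _ =>
    Finset.sum_congr rfl fun i _ => ?_
  split_ifs <;> ring

/-- The differential `C^n → C^(n+1)`; it is `0` on `C^0`, since the coefficients are trivial. -/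
noncomputable def d (L : LieSuperalgebra V) :
    (n : ℕ) → ((Fin n → V) → ℂ) →ₗ[ℂ] ((Fin (n + 1) → V) → ℂ)
  | 0 => 0
  | (_ + 1) => { toFun := dFun L, map_add' := dFun_add L, map_smul' := dFun_smul L }

/-- Relative cocycles. -/
noncomputable def Cocycle (L : LieSuperalgebra V) (a : Submodule ℂ V) (n : ℕ) :
    Submodule ℂ ((Fin n → V) → ℂ) :=
  Cochain L a n ⊓ LinearMap.ker (d L n)

/-- Relative coboundaries. -/
noncomputable def Coboundary (L : LieSuperalgebra V) (a : Submodule ℂ V) :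
    (n : ℕ) → Submodule ℂ ((Fin n → V) → ℂ)
  | 0 => ⊥
  | (n + 1) => (Cochain L a n).map (d L n)

/-- The relative cohomology `H^n(L, a; ℂ)`. -/
def H (L : LieSuperalgebra V) (a : Submodule ℂ V) (n : ℕ) : Type :=
  Cocycle L a n ⧸ (Coboundary L a n).submoduleOf (Cocycle L a n)

noncomputable instance (L : LieSuperalgebra V) (a : Submodule ℂ V) (n : ℕ) :
    AddCommGroup (H L a n) :=
  Submodule.Quotient.addCommGroup ((Coboundary L a n).submoduleOf (Cocycle L a n))

noncomputable instance (L : LieSuperalgebra V) (a : Submodule ℂ V) (n : ℕ) :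
    Module ℂ (H L a n) :=
  Submodule.Quotient.module ((Coboundary L a n).submoduleOf (Cocycle L a n))

/-- The graded algebra `A = ⨁ 𝒜 k` is Cohen–Macaulay: it contains a (graded) polynomial subalgebra
`ℂ[X_1, …, X_r]` over which it is a finitely generated free module. -/
def IsCohenMacaulay (A : Type) [Ring A] [Algebra ℂ A] (𝒜 : ℕ → Submodule ℂ A) : Prop :=
  ∃ (r : ℕ) (θ : MvPolynomial (Fin r) ℂ →ₐ[ℂ] A), Function.Injective θ ∧
    (∀ i, ∃ k, 0 < k ∧ θ (MvPolynomial.X i) ∈ 𝒜 k) ∧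
    (letI := Module.compHom A θ.toRingHom
     Module.Free (MvPolynomial (Fin r) ℂ) A ∧ Module.Finite (MvPolynomial (Fin r) ℂ) A)

/-- Every algebra structure `A = ⨁ 𝒜 k` on the total cohomology, `𝒜 k ≅ H^k(L, a; ℂ)`, in
particular the cup product, is Cohen–Macaulay. -/
def CohomologyIsCohenMacaulay (L : LieSuperalgebra V) (a : Submodule ℂ V) : Prop :=
  ∀ (A : Type) [Ring A] [Algebra ℂ A] (𝒜 : ℕ → Submodule ℂ A), DirectSum.IsInternal 𝒜 →
    (∀ k, Nonempty (H L a k ≃ₗ[ℂ] 𝒜 k)) → IsCohenMacaulay A 𝒜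

/-! ### The spectral sequence of `a ≤ L_0 ≤ L` -/

/-- `f` vanishes whenever `n - p + 1` of its `n` arguments are even. -/
def VanishesOnEven (L : LieSuperalgebra V) (p : ℕ) {n : ℕ} (f : (Fin n → V) → ℂ) : Prop :=
  ∀ S : Finset (Fin n), n + 1 ≤ S.card + p → ∀ v : Fin n → V, (∀ i ∈ S, v i ∈ L.part 0) → f v = 0

theorem filt_zero (L : LieSuperalgebra V) (a : Submodule ℂ V) (p n : ℕ) :
    (0 : (Fin n → V) → ℂ) ∈ Cochain L a n ∧ VanishesOnEven L p (0 : (Fin n → V) → ℂ) :=
  ⟨Submodule.zero_mem _, fun _ _ _ _ => rfl⟩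

theorem filt_add (L : LieSuperalgebra V) (a : Submodule ℂ V) (p : ℕ) {n : ℕ}
    {f g : (Fin n → V) → ℂ} (hf : f ∈ Cochain L a n ∧ VanishesOnEven L p f)
    (hg : g ∈ Cochain L a n ∧ VanishesOnEven L p g) :
    f + g ∈ Cochain L a n ∧ VanishesOnEven L p (f + g) := by
  refine ⟨Submodule.add_mem _ hf.1 hg.1, fun S hS v hv => ?_⟩
  simp only [Pi.add_apply, hf.2 S hS v hv, hg.2 S hS v hv, add_zero]

theorem filt_smul (L : LieSuperalgebra V) (a : Submodule ℂ V) (p : ℕ) {n : ℕ} (r : ℂ)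
    {f : (Fin n → V) → ℂ} (hf : f ∈ Cochain L a n ∧ VanishesOnEven L p f) :
    r • f ∈ Cochain L a n ∧ VanishesOnEven L p (r • f) := by
  refine ⟨Submodule.smul_mem _ r hf.1, fun S hS v hv => ?_⟩
  simp only [Pi.smul_apply, smul_eq_mul, hf.2 S hS v hv, mul_zero]

/-- `F^p C^n`: the cochains vanishing whenever `n - p + 1` of the arguments are even. -/
def Filt (L : LieSuperalgebra V) (a : Submodule ℂ V) (p n : ℕ) :
    Submodule ℂ ((Fin n → V) → ℂ) where
  carrier := {f | f ∈ Cochain L a n ∧ VanishesOnEven L p f}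
  zero_mem' := filt_zero L a p n
  add_mem' := fun hf hg => filt_add L a p hf hg
  smul_mem' := fun c _ hf => filt_smul L a p c hf

/-- `Z_r^p C^n = {c ∈ F^p C^n : d c ∈ F^(p+r) C^(n+1)}`. -/
noncomputable def Z (L : LieSuperalgebra V) (a : Submodule ℂ V) (r p n : ℕ) :
    Submodule ℂ ((Fin n → V) → ℂ) :=
  Filt L a p n ⊓ (Filt L a (p + r) (n + 1)).comap (d L n)

/-- The differential `d_r : E_r^{p,q} → E_r^{p+r,q-r+1}` (`n = p + q`, `r ≥ 1`) vanishes: the class
of `d c` in
`E_r^{p+r,q-r+1} = Z_r^{p+r} C^{n+1} / (Z_{r-1}^{p+r+1} C^{n+1} + d (Z_{r-1}^{p+1} C^n))`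
is zero for every `c ∈ Z_r^p C^n`. -/
def DifferentialVanishes (L : LieSuperalgebra V) (a : Submodule ℂ V) (r p n : ℕ) : Prop :=
  ∀ c ∈ Z L a r p n,
    d L n c ∈ Z L a (r - 1) (p + r + 1) (n + 1) ⊔ (Z L a (r - 1) (p + 1) n).map (d L n)

/-- The spectral sequence of `a ≤ L_0 ≤ L` with trivial coefficients collapses at `E_2`: all
differentials `d_r`, `r ≥ 2`, vanish. -/
def CollapsesAtE2 (L : LieSuperalgebra V) (a : Submodule ℂ V) : Prop :=
  ∀ r, 2 ≤ r → ∀ p n, DifferentialVanishes L a r p n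

end Pool.Agent.R865.SC
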