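import Mathlib
import Pool.Agent.R865.SC.Defs

set_option autoImplicit false

namespace Pool.Agent.R865.SC
open Finset

/-- the projections of the grading of `ℂ z ⊕ ℂ x` -/
noncomputable def exProj (i : Fin 2) (v : ℂ × ℂ) : ℂ × ℂ := if i = 0 then (v.1, 0) else (0, v.2)

/-- the bracket `[(a,b),(a',b')] = (2bb', 0)` -/
noncomputable def exBracket (u w : ℂ × ℂ) : ℂ × ℂ := (2 * (u.2 * w.2), 0)

theorem ex_grading : IsGrading exProj := by
  refine ⟨fun i c x y => ?_, fun v => ?_, fun i v => ?_, fun i j h v => ?_⟩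
  · fin_cases i <;> simp [exProj]
  · simp [exProj]
  · fin_cases i <;> simp [exProj]
  · fin_cases i <;> fin_cases j <;> simp [exProj] at h ⊢

theorem ex_bilinear : IsEvenBilinear exProj exBracket := by
  refine ⟨fun u c x y => ?_, fun u c x y => ?_, fun i j x y hx hy => ?_⟩
  · simp [exBracket]; ring
  · simp [exBracket]; ring
  · fin_cases i <;> fin_cases j <;>
      simp [exBracket, exProj, Prod.ext_iff] at hx hy ⊢ <;> simp [← hx, ← hy]

theorem ex_skew : IsSuperSkew exProj exBracket := by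
  intro i j x y hx hy
  fin_cases i <;> fin_cases j <;>
    simp [exBracket, exProj, sgn, Prod.ext_iff] at hx hy ⊢ <;> first | (simp [← hx, ← hy]; done) | ring

theorem ex_jacobi : IsSuperJacobi exProj exBracket := by
  intro i j k x y z hx hy hz
  simp [exBracket]

/-- The Lie superalgebra `ℂ z ⊕ ℂ x` with `z` even and central, `x` odd and `[x,x] = 2z`. -/
noncomputable def Ex : LieSuperalgebra (ℂ × ℂ) where
  proj := exProj
  bracket := exBracket
  grading := ex_grading
  bilinear := ex_bilinear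
  skew := ex_skew
  jacobi := ex_jacobi

@[simp] theorem Ex_proj_zero (v : ℂ × ℂ) : Ex.proj 0 v = (v.1, 0) := by simp [Ex, exProj]
@[simp] theorem Ex_proj_one (v : ℂ × ℂ) : Ex.proj 1 v = (0, v.2) := by simp [Ex, exProj]
@[simp] theorem Ex_bracket (u w : ℂ × ℂ) : Ex.bracket u w = (2 * (u.2 * w.2), 0) := by
  simp [Ex, exBracket]

theorem mem_part_zero (v : ℂ × ℂ) : v ∈ Ex.part 0 ↔ v.2 = 0 := by
  change Ex.proj 0 v = v ↔ v.2 = 0
  simp [Prod.ext_iff, eq_comm]

theorem mem_part_one (v : ℂ × ℂ) : v ∈ Ex.part 1 ↔ v.1 = 0 := by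
  change Ex.proj 1 v = v ↔ v.1 = 0
  simp [Prod.ext_iff, eq_comm]

end Pool.Agent.R865.SC
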