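import Mathlib
import Pool.Agent.R865.SC.Ex

set_option autoImplicit false

namespace Pool.Agent.R865.SC
open Finset

theorem mat1_ext (A B : Mat 1) (h : A 0 0 = B 0 0) : A = B := by
  ext i j
  fin_cases i; fin_cases j
  exact h

/-- `ℂˣ → GL_1(ℂ)` -/
noncomputable def gl1 : ℂˣ →* GL (Fin 1) ℂ :=
  Units.map (algebraMap ℂ (Matrix (Fin 1) (Fin 1) ℂ)).toMonoidHom

theorem gl1_surj : Function.Surjective gl1 := by
  intro g
  have hdet : (g : Matrix (Fin 1) (Fin 1) ℂ) 0 0 ≠ 0 := by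
    have h1 := g.det.ne_zero
    have h2 : ((Matrix.GeneralLinearGroup.det g : ℂˣ) : ℂ) =
        (g : Matrix (Fin 1) (Fin 1) ℂ) 0 0 := by
      simp [Matrix.GeneralLinearGroup.det]
    rwa [h2] at h1
  refine ⟨Units.mk0 _ hdet, ?_⟩
  apply Units.ext
  apply mat1_ext
  simp [gl1, Matrix.algebraMap_matrix_apply]

theorem closed_top : IsZariskiClosed (⊤ : Subgroup (GL (Fin 1) ℂ)) :=
  ⟨∅, fun g => by simp⟩

theorem connected_top : IsZariskiConnected (⊤ : Subgroup (GL (Fin 1) ℂ)) := by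
  intro H _ _ hH
  rw [Subgroup.relIndex_top_right] at hH
  rw [eq_top_iff]
  intro g _
  obtain ⟨u, rfl⟩ := gl1_surj g
  have hk : 0 < (H.index).factorial := Nat.factorial_pos _
  obtain ⟨μ, hμ⟩ := IsAlgClosed.exists_pow_nat_eq (u : ℂ) hk
  have hμ0 : μ ≠ 0 := by
    rintro rfl
    rw [zero_pow hk.ne'] at hμ
    exact u.ne_zero hμ.symm
  have h1 : u = (Units.mk0 μ hμ0) ^ (H.index).factorial := by
    apply Units.ext
    simp [hμ]
  rw [h1, map_pow]
  exact Subgroup.pow_mem_of_index_ne_zero_of_dvd hH _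
    (fun m hm0 hm => Nat.dvd_factorial hm0 hm)

theorem reductive_top : IsReductive (⊤ : Subgroup (GL (Fin 1) ℂ)) := by
  intro U _ _ _ _ hU
  rw [eq_bot_iff]
  intro u hu
  obtain ⟨k, hk⟩ := hU u hu
  rw [Subgroup.mem_bot]
  obtain ⟨c, rfl⟩ := gl1_surj u
  have h1 : mat (gl1 c) - 1 =
      algebraMap ℂ (Matrix (Fin 1) (Fin 1) ℂ) ((c : ℂ) - 1) := by
    simp [gl1, mat]
  rw [h1, ← map_pow] at hk
  have h2 : ((c : ℂ) - 1) ^ k = 0 :=
    (algebraMap ℂ (Matrix (Fin 1) (Fin 1) ℂ)).injective (by rw [hk, map_zero])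
  have h3 : (c : ℂ) = 1 := by
    have h4 : (c : ℂ) - 1 = 0 := eq_zero_of_pow_eq_zero h2
    linear_combination h4
  have h5 : c = 1 := Units.ext h3
  rw [h5, map_one]

/-- the embedding of the even part as the Lie algebra of `GL_1` -/
noncomputable def phi (v : ℂ × ℂ) : Mat 1 := v.1 • 1

theorem Ex_lieIso : IsLieIso Ex (⊤ : Subgroup (GL (Fin 1) ℂ)) phi := by
  refine ⟨fun a _ b _ c => ?_, ⟨?_, ?_, ?_⟩, fun a ha b hb => ?_⟩
  · simp [phi, add_smul, smul_smul]
  · intro a _ t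
    exact ⟨(Matrix.isUnit_exp (t • phi a)).unit, Subgroup.mem_top _, rfl⟩
  · intro a ha b hb h
    have ha' := (mem_part_zero a).1 ha
    have hb' := (mem_part_zero b).1 hb
    have h1 := congrFun (congrFun h 0) 0
    simp [phi] at h1
    exact Prod.ext h1 (by rw [ha', hb'])
  · intro X _
    refine ⟨(X 0 0, 0), ?_, ?_⟩
    · exact (mem_part_zero _).2 rfl
    · apply mat1_ext
      simp [phi]
  · rw [mem_part_zero] at ha
    rw [Ex_bracket, ha]
    simp [phi, smul_smul, mul_comm]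

theorem Ex_classical : IsClassical Ex := by
  refine ⟨inferInstance, 1, ⊤, phi, fun _ v => v, closed_top, connected_top, reductive_top,
    Ex_lieIso, ⟨fun _ _ => rfl, fun _ _ _ h => h, fun _ _ _ _ _ _ => rfl,
      fun _ _ _ _ _ _ _ => rfl⟩, ?_, ?_⟩
  · intro v _ l
    exact ⟨MvPolynomial.C (l v), fun g _ => by simp⟩
  · intro a ha v _ l γ _
    rw [mem_part_zero] at ha
    rw [Ex_bracket, ha]
    simp only [zero_mul, mul_zero]
    have : ((0 : ℂ), (0 : ℂ)) = 0 := rfl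
    rw [this, map_zero]
    exact hasDerivAt_const 0 (l v)

end Pool.Agent.R865.SC
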