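import Mathlib
import Pool.Agent.R865.SC.Ex

set_option autoImplicit false

namespace Pool.Agent.R865.SC
open Finset

/-- a product of linear functionals is multilinear -/
theorem prod_multilinear {V : Type} [AddCommGroup V] [Module ℂ V] {n : ℕ}
    (φ : Fin n → (V →ₗ[ℂ] ℂ)) : IsMultilinear (fun v : Fin n → V => ∏ l, φ l (v l)) := by
  intro v i c x y
  have key : ∀ w : V, ∏ l, φ l (Function.update v i w l) =
      φ i w * ∏ l ∈ univ.erase i, φ l (v l) := by
    intro w
    rw [← Finset.mul_prod_erase univ _ (mem_univ i)]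
    simp only [Function.update_self]
    congr 1
    refine Finset.prod_congr rfl fun l hl => ?_
    rw [Function.update_of_ne (Finset.ne_of_mem_erase hl)]
  simp only [key, map_add, map_smul, smul_eq_mul]
  ring

theorem IsMultilinear.sum {V : Type} [AddCommGroup V] [Module ℂ V] {n : ℕ} {ι : Type*}
    (s : Finset ι) (c : ι → ℂ) (f : ι → (Fin n → V) → ℂ) (h : ∀ k ∈ s, IsMultilinear (f k)) :
    IsMultilinear (fun v : Fin n → V => ∑ k ∈ s, c k * f k v) := by
  intro v i r x y
  simp only [smul_eq_mul]
  rw [Finset.mul_sum, ← Finset.sum_add_distrib]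
  refine Finset.sum_congr rfl fun k hk => ?_
  have h1 := h k hk v i r x y
  simp only [smul_eq_mul] at h1
  rw [h1]
  ring

/-- multilinear functions vanish when an argument is zero -/
theorem IsMultilinear.eq_zero {V : Type} [AddCommGroup V] [Module ℂ V] {n : ℕ}
    {f : (Fin n → V) → ℂ} (h : IsMultilinear f) (v : Fin n → V) (i : Fin n) (hi : v i = 0) :
    f v = 0 := by
  have h2 := h v i 1 0 0
  have e : Function.update v i 0 = v := by rw [← hi]; exact Function.update_eq_self i v
  simp only [smul_zero, add_zero, e, one_smul] at h2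
  linear_combination -h2

/-- relative conditions are automatic for the zero subalgebra -/
theorem mem_cochain_bot {V : Type} [AddCommGroup V] [Module ℂ V] (L : LieSuperalgebra V) {n : ℕ}
    (f : (Fin n → V) → ℂ) : f ∈ Cochain L ⊥ n ↔ IsMultilinear f ∧ IsSuperAlternating L f := by
  constructor
  · rintro ⟨h1, h2, -, -⟩
    exact ⟨h1, h2⟩
  · rintro ⟨h1, h2⟩
    refine ⟨h1, h2, fun v i hi => ?_, fun x hx v => ?_⟩
    · exact h1.eq_zero v i ((Submodule.mem_bot ℂ).1 hi)
    · rw [(Submodule.mem_bot ℂ).1 hx]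
      refine Finset.sum_eq_zero fun i _ => ?_
      have h0 : L.bracket 0 (v i) = 0 := by
        have := L.bilinear.2.1 (v i) 1 0 0
        simpa using this
      exact h1.eq_zero _ i (by simp [h0])

/-- the monomials of `Q` -/
noncomputable def T {n : ℕ} (k : Fin n) (v : Fin n → ℂ × ℂ) : ℂ :=
  ∏ l, if l = k then (v l).1 else (v l).2

/-- `ξ^n` -/
noncomputable def P (n : ℕ) (v : Fin n → ℂ × ℂ) : ℂ := ∏ l, (v l).2

/-- `ζ ξ^(n-1)` -/
noncomputable def Q (n : ℕ) (v : Fin n → ℂ × ℂ) : ℂ := ∑ k : Fin n, (-1 : ℂ) ^ (k : ℕ) * T k v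

theorem P_multilinear (n : ℕ) : IsMultilinear (P n) :=
  prod_multilinear (fun _ => LinearMap.snd ℂ ℂ ℂ)

theorem T_multilinear {n : ℕ} (k : Fin n) : IsMultilinear (T k) := by
  have := prod_multilinear (V := ℂ × ℂ)
    (fun l : Fin n => if l = k then LinearMap.fst ℂ ℂ ℂ else LinearMap.snd ℂ ℂ ℂ)
  convert this using 2 with v
  unfold T
  refine Finset.prod_congr rfl fun l _ => ?_
  split_ifs <;> simp

theorem Q_multilinear (n : ℕ) : IsMultilinear (Q n) :=
  IsMultilinear.sum univ _ _ (fun k _ => T_multilinear k)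

theorem fin2_cases (a : Fin 2) : a = 0 ∨ a = 1 := by
  fin_cases a <;> simp

theorem sign_eq_one {a b : Fin 2} (h : a = 0 ∨ b = 0) :
    sgn ((a : ℕ) * (b : ℕ)) = 1 := by
  rcases h with h | h <;> simp [h, sgn]

theorem P_super (n : ℕ) : IsSuperAlternating Ex (P n) := by
  intro e v hv i j hij
  have h1 : P n (fun k => v (Equiv.swap i j k)) = P n v := by
    unfold P
    exact Equiv.prod_comp (Equiv.swap i j) (fun l => (v l).2)
  rw [h1]
  rcases fin2_cases (e i) with hi | hi
  · have hz : P n v = 0 := by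
      unfold P
      refine Finset.prod_eq_zero (mem_univ i) ?_
      have := hv i
      rw [hi, mem_part_zero] at this
      exact this
    simp [hz]
  · rcases fin2_cases (e j) with hj | hj
    · have hz : P n v = 0 := by
        unfold P
        refine Finset.prod_eq_zero (mem_univ j) ?_
        have := hv j
        rw [hj, mem_part_zero] at this
        exact this
      simp [hz]
    · simp [hi, hj, sgn]

theorem T_swap {n : ℕ} (i j k : Fin n) (v : Fin n → ℂ × ℂ) :
    T k (fun l => v (Equiv.swap i j l)) = T (Equiv.swap i j k) v := by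
  unfold T
  rw [← Equiv.prod_comp (Equiv.swap i j)]
  refine Finset.prod_congr rfl fun l _ => ?_
  simp only [Equiv.swap_apply_self]
  have : (Equiv.swap i j l = k) ↔ (l = Equiv.swap i j k) := by
    constructor
    · rintro rfl; simp
    · rintro rfl; simp
  simp only [this]

theorem Q_super (n : ℕ) : IsSuperAlternating Ex (Q n) := by
  intro e v hv i j hij
  have hne : i ≠ j := by
    intro h; rw [h] at hij; omega
  have h1 : Q n (fun k => v (Equiv.swap i j k)) =
      ∑ k, (-1 : ℂ) ^ ((Equiv.swap i j k : Fin n) : ℕ) * T k v := by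
    unfold Q
    rw [← Equiv.sum_comp (Equiv.swap i j)]
    refine Finset.sum_congr rfl fun k _ => ?_
    rw [T_swap, Equiv.swap_apply_self]
  rw [h1]
  unfold Q
  rw [Finset.mul_sum, ← Finset.sum_neg_distrib]
  refine Finset.sum_congr rfl fun k _ => ?_
  have hTa : ∀ k : Fin n, e k = 1 → T k v = 0 := by
    intro k hk
    unfold T
    refine Finset.prod_eq_zero (mem_univ k) ?_
    have := hv k
    rw [hk, mem_part_one] at this
    simp [this]
  have hTb : ∀ k l : Fin n, l ≠ k → e l = 0 → T k v = 0 := by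
    intro k l hlk hl
    unfold T
    refine Finset.prod_eq_zero (mem_univ l) ?_
    have := hv l
    rw [hl, mem_part_zero] at this
    simp [this, hlk]
  by_cases hki : k = i
  · subst hki
    rw [Equiv.swap_apply_left, hij, pow_succ]
    rcases fin2_cases (e k) with hk | hk
    · rw [sign_eq_one (Or.inl hk)]; ring
    · rw [hTa k hk]; ring
  by_cases hkj : k = j
  · subst hkj
    rw [Equiv.swap_apply_right]
    rcases fin2_cases (e k) with hk | hk
    · rw [sign_eq_one (Or.inr hk), hij, pow_succ]; ring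
    · rw [hTa k hk]; ring
  rw [Equiv.swap_apply_of_ne_of_ne hki hkj]
  rcases fin2_cases (e i) with hi | hi
  · rw [hTb k i (Ne.symm hki) hi]; ring
  · rcases fin2_cases (e j) with hj | hj
    · rw [hTb k j (Ne.symm hkj) hj]; ring
    · simp [hi, hj, sgn]

theorem P_mem (n : ℕ) : P n ∈ Cochain Ex ⊥ n :=
  (mem_cochain_bot Ex _).2 ⟨P_multilinear n, P_super n⟩

theorem Q_mem (n : ℕ) : Q n ∈ Cochain Ex ⊥ n :=
  (mem_cochain_bot Ex _).2 ⟨Q_multilinear n, Q_super n⟩

end Pool.Agent.R865.SC
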