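import Mathlib
import Pool.Agent.R865.SC.Coch

set_option autoImplicit false

namespace Pool.Agent.R865.SC
open Finset

/-- the basis vectors: `bv 0 = z`, `bv 1 = x` -/
noncomputable def bv (a : Fin 2) : ℂ × ℂ := if a = 0 then (1, 0) else (0, 1)

@[simp] theorem bv_zero : bv 0 = (1, 0) := by simp [bv]
@[simp] theorem bv_one : bv 1 = (0, 1) := by simp [bv]

theorem bv_mem (a : Fin 2) : bv a ∈ Ex.part a := by
  rcases fin2_cases a with h | h <;> subst h
  · rw [bv_zero, mem_part_zero]
  · rw [bv_one, mem_part_one]

/-- the multilinear map of a multilinear function -/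
noncomputable def toMulti {V : Type} [AddCommGroup V] [Module ℂ V] {n : ℕ}
    (f : (Fin n → V) → ℂ) (h : IsMultilinear f) : MultilinearMap ℂ (fun _ : Fin n => V) ℂ where
  toFun := f
  map_update_add' := by
    intro inst v i x y
    have e : inst = instDecidableEqFin n := Subsingleton.elim _ _
    subst e
    have := h v i 1 x y
    simpa using this
  map_update_smul' := by
    intro inst v i c x
    have e : inst = instDecidableEqFin n := Subsingleton.elim _ _
    subst e
    have h1 := h v i c x 0
    have h2 : f (Function.update v i 0) = 0 := h.eq_zero _ i (by simp)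
    simp only [add_zero, h2] at h1
    exact h1

/-- a multilinear function vanishing on basis tuples is zero -/
theorem eq_zero_of_basis {n : ℕ} (f : (Fin n → ℂ × ℂ) → ℂ) (h : IsMultilinear f)
    (h0 : ∀ e : Fin n → Fin 2, f (fun k => bv (e k)) = 0) : f = 0 := by
  have key : toMulti f h = 0 := by
    let b : Module.Basis (Fin 2) ℂ (ℂ × ℂ) := Module.Basis.finTwoProd ℂ
    refine Module.Basis.ext_multilinear (fun _ => b) ?_
    intro e
    have : (fun i => b (e i)) = fun k => bv (e k) := by
      funext k
      rcases fin2_cases (e k) with hk | hk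
      · rw [hk]; simp [b]
      · rw [hk]; simp [b]
    rw [this]
    exact h0 e
  funext v
  have := congrArg (fun g => g v) key
  exact this

theorem struct_zero {n : ℕ} (f : (Fin n → ℂ × ℂ) → ℂ) (hs : IsSuperAlternating Ex f)
    (h1 : f (fun _ => bv 1) = 0)
    (h2 : ∀ e : Fin n → Fin 2, (∀ k, e k = 0 ↔ (k : ℕ) = 0) → f (fun k => bv (e k)) = 0) :
    ∀ (M : ℕ) (e : Fin n → Fin 2), (∑ k : Fin n, if e k = 0 then (k : ℕ) else 0) = M →
      f (fun k => bv (e k)) = 0 := by
  intro M
  induction M using Nat.strong_induction_on with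
  | _ M ih =>
  intro e hM
  by_cases hA : ∃ i j : Fin n, (j : ℕ) = i + 1 ∧ e i = 1 ∧ e j = 0
  · obtain ⟨i, j, hij, hi, hj⟩ := hA
    have h3 := hs e (fun k => bv (e k)) (fun k => bv_mem (e k)) i j hij
    have hne : i ≠ j := by
      intro h; rw [h] at hij; omega
    have h4 : f (fun k => bv (e (Equiv.swap i j k))) = 0 := by
      refine ih _ ?_ (fun k => e (Equiv.swap i j k)) rfl
      rw [← hM, ← Equiv.sum_comp (Equiv.swap i j)]
      simp only [Equiv.swap_apply_self]
      refine Finset.sum_lt_sum (fun k _ => ?_) ⟨j, mem_univ j, ?_⟩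
      · by_cases hki : k = i
        · subst hki; simp [hi]
        · by_cases hkj : k = j
          · subst hkj
            rw [Equiv.swap_apply_right]
            split_ifs <;> omega
          · rw [Equiv.swap_apply_of_ne_of_ne hki hkj]
      · rw [Equiv.swap_apply_right, if_pos hj, if_pos hj]
        omega
    rw [h4, sign_eq_one (Or.inr hj), one_mul] at h3
    linear_combination h3
  · push Not at hA
    have hmono : ∀ (t : ℕ) (j : Fin n), (j : ℕ) = t → e j = 0 → ∀ i : Fin n, i ≤ j → e i = 0 := by
      intro t
      induction t with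
      | zero =>
        intro j hj he i hij
        have : i = j := by
          apply Fin.ext
          have := Fin.le_def.1 hij
          omega
        rw [this]; exact he
      | succ t iht =>
        intro j hj he i hij
        by_cases hlt : i = j
        · rw [hlt]; exact he
        · have hjn : t < n := by have := j.2; omega
          have hj' : e ⟨t, hjn⟩ = 0 := by
            rcases fin2_cases (e ⟨t, hjn⟩) with h | h
            · exact h
            · exact absurd he (hA ⟨t, hjn⟩ j (by simp [hj]) h)
          refine iht ⟨t, hjn⟩ rfl hj' i ?_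
          rw [Fin.le_def]
          have h5 := Fin.le_def.1 hij
          have h6 : (i : ℕ) ≠ j := fun h => hlt (Fin.ext h)
          simp only
          omega
    by_cases hall : ∀ k, e k = 1
    · have : (fun k => bv (e k)) = fun _ => bv 1 := by
        funext k; rw [hall k]
      rw [this]; exact h1
    push Not at hall
    obtain ⟨j, hj⟩ := hall
    have hj0 : e j = 0 := (fin2_cases (e j)).resolve_right hj
    by_cases htwo : ∃ k : Fin n, 1 ≤ (k : ℕ) ∧ e k = 0
    · obtain ⟨k, hk1, hk⟩ := htwo
      have hn : 1 < n := lt_of_le_of_lt hk1 k.2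
      have e0 : e ⟨0, by omega⟩ = 0 := hmono _ k rfl hk _ (by rw [Fin.le_def]; simp)
      have e1 : e ⟨1, hn⟩ = 0 := hmono _ k rfl hk _ (by rw [Fin.le_def]; exact hk1)
      have h3 := hs e (fun k => bv (e k)) (fun k => bv_mem (e k)) ⟨0, by omega⟩ ⟨1, hn⟩ rfl
      have h4 : (fun k => bv (e (Equiv.swap (⟨0, by omega⟩ : Fin n) ⟨1, hn⟩ k))) =
          fun k => bv (e k) := by
        funext l
        congr 1
        by_cases hl0 : l = ⟨0, by omega⟩
        · rw [hl0, Equiv.swap_apply_left, e0, e1]
        · by_cases hl1 : l = ⟨1, hn⟩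
          · rw [hl1, Equiv.swap_apply_right, e0, e1]
          · rw [Equiv.swap_apply_of_ne_of_ne hl0 hl1]
      rw [h4, sign_eq_one (Or.inl e0), one_mul] at h3
      linear_combination (1/2 : ℂ) * h3
    · push Not at htwo
      refine h2 e fun k => ⟨fun hk => ?_, fun hk => ?_⟩
      · by_contra hne
        exact htwo k (by omega) hk
      · exact hmono _ j rfl hj0 k (by rw [Fin.le_def]; omega)

/-- structure of the cochains -/
theorem cochain_struct {n : ℕ} (f : (Fin n → ℂ × ℂ) → ℂ) (hf : f ∈ Cochain Ex ⊥ n) :
    ∃ α β : ℂ, f = α • P n + β • Q n ∧ α = f (fun _ => bv 1) ∧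
      ∀ e : Fin n → Fin 2, (∀ k, e k = 0 ↔ (k : ℕ) = 0) → 0 < n → β = f (fun k => bv (e k)) := by
  set e0 : Fin n → Fin 2 := fun k => if (k : ℕ) = 0 then 0 else 1 with he0
  set α := f (fun _ => bv 1) with hα
  set β := f (fun k => bv (e0 k)) with hβ
  have hP1 : P n (fun _ => bv 1) = 1 := by simp [P]
  have hQ1 : Q n (fun _ => bv 1) = 0 := by
    unfold Q T
    refine Finset.sum_eq_zero fun k _ => ?_
    rw [Finset.prod_eq_zero (mem_univ k) (by simp)]
    simp
  have huniq : ∀ e : Fin n → Fin 2, (∀ k, e k = 0 ↔ (k : ℕ) = 0) → e = e0 := by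
    intro e he
    funext k
    rw [he0]
    by_cases hk : (k : ℕ) = 0
    · simp only [hk, if_true]; exact (he k).2 hk
    · simp only [hk, if_false]
      exact (fin2_cases (e k)).resolve_left (fun h => hk ((he k).1 h))
  have hPe : 0 < n → P n (fun k => bv (e0 k)) = 0 := by
    intro hn
    unfold P
    exact Finset.prod_eq_zero (mem_univ ⟨0, hn⟩) (by simp [he0])
  have hQe : 0 < n → Q n (fun k => bv (e0 k)) = 1 := by
    intro hn
    unfold Q
    rw [Finset.sum_eq_single ⟨0, hn⟩]
    · unfold T
      rw [Finset.prod_eq_one]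
      · simp
      · intro l _
        by_cases hl : l = ⟨0, hn⟩
        · rw [if_pos hl, hl]; simp [he0]
        · rw [if_neg hl]
          have : (l : ℕ) ≠ 0 := fun h => hl (Fin.ext h)
          simp [he0, this]
    · intro k _ hk
      unfold T
      have hk0 : (k : ℕ) ≠ 0 := fun h => hk (Fin.ext h)
      rw [Finset.prod_eq_zero (mem_univ k)]
      · simp
      · simp [he0, hk0]
    · simp
  refine ⟨α, β, ?_, rfl, fun e he hn => by rw [hβ, huniq e he]⟩
  set g := f - (α • P n + β • Q n) with hg
  have hgm : g ∈ Cochain Ex ⊥ n :=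
    Submodule.sub_mem _ hf (Submodule.add_mem _ (Submodule.smul_mem _ _ (P_mem n))
      (Submodule.smul_mem _ _ (Q_mem n)))
  obtain ⟨g1, g2⟩ := (mem_cochain_bot Ex _).1 hgm
  have hg0 : g = 0 := by
    refine eq_zero_of_basis g g1 fun e => ?_
    refine struct_zero g g2 ?_ ?_ _ e rfl
    · rw [hg]
      simp only [Pi.sub_apply, Pi.add_apply, Pi.smul_apply, smul_eq_mul, hP1, hQ1, hα]
      ring
    · intro e' he'
      rw [huniq e' he']
      rcases Nat.eq_zero_or_pos n with hn | hn
      · subst hn
        have : (fun k => bv (e0 k)) = fun _ => bv 1 := by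
          funext k; exact k.elim0
        rw [this, hg]
        simp only [Pi.sub_apply, Pi.add_apply, Pi.smul_apply, smul_eq_mul, hP1, hQ1, hα]
        ring
      · rw [hg]
        simp only [Pi.sub_apply, Pi.add_apply, Pi.smul_apply, smul_eq_mul, hPe hn, hQe hn, hβ]
        ring
  exact sub_eq_zero.1 hg0

end Pool.Agent.R865.SC
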