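import Mathlib
import Pool.Agent.R865.SC.Struct

set_option autoImplicit false

namespace Pool.Agent.R865.SC
open Finset

/-- the number of pairs `i < j` -/
noncomputable def N (m : ℕ) : ℂ :=
  ∑ j : Fin (m + 2), ∑ i : Fin (m + 1), if i.castSucc < j then (1 : ℂ) else 0

theorem N_ne (m : ℕ) : N m ≠ 0 := by
  have h : N m = ((∑ j : Fin (m + 2), ∑ i : Fin (m + 1), if i.castSucc < j then 1 else 0 : ℕ) : ℂ)
      := by
    unfold N
    push_cast
    rfl
  rw [h, Nat.cast_ne_zero]
  intro h0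
  rw [Finset.sum_eq_zero_iff] at h0
  have h1 := h0 (Fin.last (m + 1)) (mem_univ _)
  rw [Finset.sum_eq_zero_iff] at h1
  have h2 := h1 0 (mem_univ _)
  rw [if_pos] at h2
  · exact one_ne_zero h2
  · rw [Fin.lt_def]; simp

theorem d_apply (m : ℕ) (f : (Fin (m + 1) → ℂ × ℂ) → ℂ) (v : Fin (m + 2) → ℂ × ℂ) :
    d Ex (m + 1) f v = ∑ e : Fin (m + 2) → Fin 2, ∑ j : Fin (m + 2), ∑ i : Fin (m + 1),
        if i.castSucc < j then
          sgn (koszul e i.castSucc j) *
            f (Fin.cons (Ex.bracket (Ex.proj (e i.castSucc) (v i.castSucc)) (Ex.proj (e j) (v j)))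
              (fun k : Fin m => Ex.proj (e (j.succAbove (i.succAbove k)))
                (v (j.succAbove (i.succAbove k)))))
        else 0 := rfl

theorem d_P (m : ℕ) : d Ex (m + 1) (P (m + 1)) = 0 := by
  funext v
  rw [d_apply]
  refine Finset.sum_eq_zero fun e _ => Finset.sum_eq_zero fun j _ =>
    Finset.sum_eq_zero fun i _ => ?_
  split_ifs
  · rw [P, Fin.prod_univ_succ]
    simp
  · rfl

theorem koszul_one {n : ℕ} (i j : Fin n) : sgn (koszul (fun _ => (1 : Fin 2)) i j) = -1 := by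
  unfold sgn
  have h1 : ∀ a : Fin n, ∑ k ∈ univ.filter (· < a), (((1 : Fin 2) : ℕ)) = (a : ℕ) := by
    intro a
    have h0 : (univ.filter (· < a) : Finset (Fin n)) = Iio a := by ext x; simp
    rw [h0]
    simp
  have h2 : koszul (fun _ => (1 : Fin 2)) i j = 2 * ((i : ℕ) + j) + 1 := by
    unfold koszul
    simp only [h1]
    simp
    ring
  rw [h2, pow_succ, pow_mul]
  simp

theorem Q_cons (m : ℕ) (A : ℂ) (w : Fin m → ℂ × ℂ) :
    Q (m + 1) (Fin.cons (A, 0) w) = A * ∏ l, (w l).2 := by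
  unfold Q T
  rw [Fin.sum_univ_succ]
  rw [Finset.sum_eq_zero (s := univ) (f := fun k : Fin m => _)]
  · rw [Fin.prod_univ_succ]
    simp
  · intro k _
    rw [Fin.prod_univ_succ]
    simp [(Fin.succ_ne_zero k).symm]

theorem proj_snd (a : Fin 2) (v : ℂ × ℂ) : (Ex.proj a v).2 = if a = 1 then v.2 else 0 := by
  rcases fin2_cases a with h | h <;> subst h <;> simp

theorem prod_split {m : ℕ} (h : Fin (m + 2) → ℂ) (i : Fin (m + 1)) (j : Fin (m + 2))
    (hij : i.castSucc < j) :
    ∏ k, h k = h i.castSucc * h j * ∏ k : Fin m, h (j.succAbove (i.succAbove k)) := by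
  rw [Fin.prod_univ_succAbove h j, Fin.prod_univ_succAbove _ i,
    Fin.succAbove_of_castSucc_lt j i hij]
  ring

theorem d_Q (m : ℕ) : d Ex (m + 1) (Q (m + 1)) = (-(2 * N m)) • P (m + 2) := by
  funext v
  rw [d_apply]
  have h1 : ∀ e : Fin (m + 2) → Fin 2, e ≠ (fun _ => 1) →
      ∏ k, (Ex.proj (e k) (v k)).2 = 0 := by
    intro e he
    obtain ⟨k, hk⟩ : ∃ k, e k ≠ 1 := by
      by_contra hcon
      push Not at hcon
      exact he (funext hcon)
    refine Finset.prod_eq_zero (mem_univ k) ?_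
    rw [proj_snd, if_neg hk]
  have h2 : ∀ e : Fin (m + 2) → Fin 2, ∀ j : Fin (m + 2), ∀ i : Fin (m + 1),
      (if i.castSucc < j then
          sgn (koszul e i.castSucc j) *
            Q (m + 1) (Fin.cons (Ex.bracket (Ex.proj (e i.castSucc) (v i.castSucc))
              (Ex.proj (e j) (v j)))
              (fun k : Fin m => Ex.proj (e (j.succAbove (i.succAbove k)))
                (v (j.succAbove (i.succAbove k)))))
        else 0) = if i.castSucc < j then sgn (koszul e i.castSucc j) * (2 *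
          ∏ k, (Ex.proj (e k) (v k)).2) else 0 := by
    intro e j i
    split_ifs with hij
    · rw [Ex_bracket, Q_cons, prod_split (fun k => (Ex.proj (e k) (v k)).2) i j hij]
      ring
    · rfl
  simp only [h2]
  rw [Finset.sum_eq_single (fun _ => (1 : Fin 2))]
  · simp only [koszul_one]
    have h3 : ∏ k, (Ex.proj 1 (v k)).2 = P (m + 2) v := by
      unfold P; simp
    rw [h3]
    simp only [Pi.smul_apply, smul_eq_mul]
    unfold N
    rw [Finset.mul_sum, ← Finset.sum_neg_distrib, Finset.sum_mul]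
    refine Finset.sum_congr rfl fun j _ => ?_
    rw [Finset.mul_sum, ← Finset.sum_neg_distrib, Finset.sum_mul]
    refine Finset.sum_congr rfl fun i _ => ?_
    split_ifs <;> ring
  · intro e _ he
    refine Finset.sum_eq_zero fun j _ => Finset.sum_eq_zero fun i _ => ?_
    rw [h1 e he]
    simp
  · intro h; exact absurd (mem_univ _) h

theorem P_one (n : ℕ) : P n (fun _ => bv 1) = 1 := by simp [P]

/-- cocycles of positive degree are multiples of `ξ^n` -/
theorem cocycle_eq (m : ℕ) (f : (Fin (m + 1) → ℂ × ℂ) → ℂ) (hf : f ∈ Cocycle Ex ⊥ (m + 1)) :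
    ∃ α : ℂ, f = α • P (m + 1) := by
  obtain ⟨h1, h2⟩ := Submodule.mem_inf.1 hf
  obtain ⟨α, β, h3, -, -⟩ := cochain_struct f h1
  have h4 : d Ex (m + 1) f = 0 := LinearMap.mem_ker.1 h2
  rw [h3, map_add, map_smul, map_smul, d_P, d_Q, smul_zero, zero_add, smul_smul] at h4
  have h5 := congrFun h4 (fun _ => bv 1)
  simp only [Pi.smul_apply, smul_eq_mul, P_one, mul_one, Pi.zero_apply] at h5
  have hβ : β = 0 := by
    rcases mul_eq_zero.1 h5 with h | h
    · exact h
    · exfalso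
      have := N_ne m
      apply this
      linear_combination (-1/2 : ℂ) * h
  exact ⟨α, by rw [h3, hβ, zero_smul, add_zero]⟩

theorem P_coboundary (m : ℕ) : P (m + 2) ∈ Coboundary Ex ⊥ (m + 2) := by
  refine ⟨(-(1 / (2 * N m))) • Q (m + 1), Submodule.smul_mem _ _ (Q_mem _), ?_⟩
  rw [map_smul, d_Q, smul_smul]
  have h := N_ne m
  have : -(1 / (2 * N m)) * -(2 * N m) = 1 := by field_simp
  rw [this, one_smul]

theorem H_subsingleton (n : ℕ) (hn : 2 ≤ n) : Subsingleton (H Ex ⊥ n) := by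
  obtain ⟨m, rfl⟩ : ∃ m, n = m + 2 := ⟨n - 2, by omega⟩
  change Subsingleton (Cocycle Ex ⊥ (m + 2) ⧸
    (Coboundary Ex ⊥ (m + 2)).submoduleOf (Cocycle Ex ⊥ (m + 2)))
  rw [Submodule.Quotient.subsingleton_iff]
  rw [eq_top_iff]
  rintro ⟨f, hf⟩ -
  obtain ⟨α, hα⟩ := cocycle_eq (m + 1) f hf
  change f ∈ Coboundary Ex ⊥ (m + 2)
  rw [hα]
  exact Submodule.smul_mem _ _ (P_coboundary m)

theorem P_cocycle (n : ℕ) : P (n + 1) ∈ Cocycle Ex ⊥ (n + 1) :=
  ⟨P_mem _, LinearMap.mem_ker.2 (d_P n)⟩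

end Pool.Agent.R865.SC
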