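import Mathlib
import Pool.Agent.R865.SC.Diff

set_option autoImplicit false

namespace Pool.Agent.R865.SC
open Finset

theorem cocycle_zero : Cocycle Ex ⊥ 0 = Submodule.span ℂ {P 0} := by
  apply le_antisymm
  · intro f _
    rw [Submodule.mem_span_singleton]
    refine ⟨f (fun k => k.elim0), ?_⟩
    funext v
    have : v = fun k => k.elim0 := by funext k; exact k.elim0
    rw [this]
    simp [P]
  · rw [Submodule.span_singleton_le_iff_mem]
    refine ⟨P_mem _, LinearMap.mem_ker.2 ?_⟩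
    rfl

theorem cocycle_succ (m : ℕ) : Cocycle Ex ⊥ (m + 1) = Submodule.span ℂ {P (m + 1)} := by
  apply le_antisymm
  · intro f hf
    rw [Submodule.mem_span_singleton]
    obtain ⟨α, hα⟩ := cocycle_eq m f hf
    exact ⟨α, hα.symm⟩
  · rw [Submodule.span_singleton_le_iff_mem]
    exact P_cocycle m

theorem P_ne (n : ℕ) : P n ≠ 0 := by
  intro h
  have := congrFun h (fun _ => bv 1)
  rw [P_one] at this
  exact one_ne_zero this

theorem cocycle_eq_span (n : ℕ) : Cocycle Ex ⊥ n = Submodule.span ℂ {P n} := by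
  cases n with
  | zero => exact cocycle_zero
  | succ m => exact cocycle_succ m

theorem coboundary_bot (n : ℕ) (hn : n < 2) : Coboundary Ex ⊥ n = ⊥ := by
  interval_cases n
  · rfl
  · change (Cochain Ex ⊥ 0).map (d Ex 0) = ⊥
    have : d Ex 0 = 0 := rfl
    rw [this, Submodule.map_zero]

theorem H_finrank (n : ℕ) (hn : n < 2) : Module.finrank ℂ (H Ex ⊥ n) = 1 := by
  have h : (Coboundary Ex ⊥ n).submoduleOf (Cocycle Ex ⊥ n) = ⊥ := by
    rw [coboundary_bot n hn]
    unfold Submodule.submoduleOf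
    rw [Submodule.comap_bot, Submodule.ker_subtype]
  have h1 : Module.finrank ℂ (H Ex ⊥ n) = Module.finrank ℂ (Cocycle Ex ⊥ n) :=
    (Submodule.quotEquivOfEqBot _ h).finrank_eq
  rw [h1, cocycle_eq_span, finrank_span_singleton (P_ne n)]

instance H_finite (n : ℕ) : Module.Finite ℂ (H Ex ⊥ n) := by
  rcases lt_or_ge n 2 with h | h
  · exact Module.finite_of_finrank_pos (by rw [H_finrank n h]; exact one_pos)
  · have := H_subsingleton n h
    infer_instance

theorem total_finite (A : Type) [Ring A] [Algebra ℂ A] (𝒜 : ℕ → Submodule ℂ A)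
    (hA : DirectSum.IsInternal 𝒜) (hψ : ∀ k, Nonempty (H Ex ⊥ k ≃ₗ[ℂ] 𝒜 k)) :
    Module.Finite ℂ A := by
  have hfin : ∀ k, Module.Finite ℂ (𝒜 k) := by
    intro k
    obtain ⟨ψ⟩ := hψ k
    exact Module.Finite.equiv ψ
  have hbot : ∀ k, 2 ≤ k → 𝒜 k = ⊥ := by
    intro k hk
    obtain ⟨ψ⟩ := hψ k
    have := H_subsingleton k hk
    have h1 : Subsingleton (𝒜 k) := ψ.symm.injective.subsingleton
    exact Submodule.subsingleton_iff_eq_bot.1 h1
  have htop : (⊤ : Submodule ℂ A) ≤ 𝒜 0 ⊔ 𝒜 1 := by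
    rw [← hA.submodule_iSup_eq_top]
    refine iSup_le fun k => ?_
    rcases lt_or_ge k 2 with h | h
    · interval_cases k
      · exact le_sup_left
      · exact le_sup_right
    · rw [hbot k h]; exact bot_le
  have hfg : (𝒜 0 ⊔ 𝒜 1).FG :=
    Submodule.FG.sup ((Submodule.fg_top _).1 (hfin 0).fg_top) ((Submodule.fg_top _).1 (hfin 1).fg_top)
  exact ⟨by rw [← top_le_iff.1 htop]; exact hfg⟩

theorem total_nontrivial (A : Type) [Ring A] [Algebra ℂ A] (𝒜 : ℕ → Submodule ℂ A)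
    (hψ : ∀ k, Nonempty (H Ex ⊥ k ≃ₗ[ℂ] 𝒜 k)) : Nontrivial A := by
  obtain ⟨ψ⟩ := hψ 0
  have : Nontrivial (H Ex ⊥ 0) :=
    Module.nontrivial_of_finrank_pos (R := ℂ) (by rw [H_finrank 0 (by norm_num)]; exact one_pos)
  have h1 : Nontrivial (𝒜 0) := ψ.injective.nontrivial
  exact Subtype.coe_injective.nontrivial (α := 𝒜 0)

/-- a nonzero finite dimensional algebra is Cohen–Macaulay -/
theorem isCM_of_finite (A : Type) [Ring A] [Algebra ℂ A] [Nontrivial A] [Module.Finite ℂ A]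
    (𝒜 : ℕ → Submodule ℂ A) : IsCohenMacaulay A 𝒜 := by
  let σ : MvPolynomial (Fin 0) ℂ ≃ₐ[ℂ] ℂ := MvPolynomial.isEmptyAlgEquiv ℂ (Fin 0)
  refine ⟨0, (Algebra.ofId ℂ A).comp (σ : MvPolynomial (Fin 0) ℂ →ₐ[ℂ] ℂ), ?_,
    fun i => i.elim0, ?_⟩
  · have h1 : Function.Injective (Algebra.ofId ℂ A) := (algebraMap ℂ A).injective
    exact h1.comp σ.injective
  · letI := Module.compHom A
      ((Algebra.ofId ℂ A).comp (σ : MvPolynomial (Fin 0) ℂ →ₐ[ℂ] ℂ)).toRingHom
    let b := Module.finBasis ℂ A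
    have hc : ∀ (c : ℂ) (x : A), (σ.symm.toRingEquiv c : MvPolynomial (Fin 0) ℂ) • x = c • x := by
      intro c x
      change ((Algebra.ofId ℂ A).comp (σ : MvPolynomial (Fin 0) ℂ →ₐ[ℂ] ℂ)) (σ.symm c) * x = c • x
      have : ((Algebra.ofId ℂ A).comp (σ : MvPolynomial (Fin 0) ℂ →ₐ[ℂ] ℂ)) (σ.symm c) =
          algebraMap ℂ A c := by
        simp [Algebra.ofId_apply]
      rw [this, Algebra.smul_def]
    let b' := b.mapCoeffs σ.symm.toRingEquiv hc
    exact ⟨Module.Free.of_basis b', Module.Finite.of_basis b'⟩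

theorem Ex_CM : CohomologyIsCohenMacaulay Ex ⊥ := by
  intro A _ _ 𝒜 hA hψ
  have h1 := total_finite A 𝒜 hA hψ
  have h2 := total_nontrivial A 𝒜 hψ
  exact isCM_of_finite A _

/-- the spectral sequence does not collapse at `E_2` -/
theorem Ex_not_vanish : ¬ DifferentialVanishes Ex ⊥ 2 0 1 := by
  intro h
  have hQ : Q 1 ∈ Z Ex ⊥ 2 0 1 := by
    refine ⟨⟨Q_mem 1, fun S hS v hv => ?_⟩, ⟨?_, fun S hS v hv => ?_⟩⟩
    · exfalso
      have := S.card_le_univ
      rw [Fintype.card_fin] at this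
      omega
    · rw [d_Q]
      exact Submodule.smul_mem _ _ (P_mem _)
    · rw [d_Q]
      have hc : 0 < S.card := by omega
      obtain ⟨i, hi⟩ := Finset.card_pos.1 hc
      simp only [Pi.smul_apply]
      have : P 2 v = 0 := by
        unfold P
        exact Finset.prod_eq_zero (mem_univ i) ((mem_part_zero _).1 (hv i hi))
      rw [this, smul_zero]
  have h1 := h (Q 1) hQ
  obtain ⟨y, hy, z, hz, hyz⟩ := Submodule.mem_sup.1 h1
  obtain ⟨w, hw, rfl⟩ := hz
  have hy0 : y = 0 := by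
    funext v
    exact hy.1.2 ∅ (by simp) v (by simp)
  have hw0 : d Ex 1 w = 0 := by
    obtain ⟨α, β, h3, -, h5⟩ := cochain_struct w hw.1.1
    have h6 := h5 (fun _ => 0) (fun k => by simp) one_pos
    have h7 : w (fun _ => bv 0) = 0 :=
      hw.1.2 {0} (by simp) _ (fun i _ => bv_mem 0)
    have hβ : β = 0 := by rw [h6]; exact h7
    rw [h3, hβ, zero_smul, add_zero, map_smul, d_P, smul_zero]
  rw [hy0, hw0, add_zero, d_Q] at hyz
  have h8 := congrFun hyz (fun _ => bv 1)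
  simp only [Pi.smul_apply, smul_eq_mul, P_one, mul_one, Pi.zero_apply] at h8
  apply N_ne 0
  linear_combination (1/2 : ℂ) * h8

end Pool.Agent.R865.SC
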